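import Pool.Agent.helper73.BRZ.Spec

/-! Row RAL: elementary facts on the real algebra. -/

set_option autoImplicit false

namespace Pool.Agent.BRZ

open Matrix Module Pool.Agent.PR Pool.Agent.SHL TensorProduct MeasureTheory
open scoped ENNReal ContDiff RealInnerProductSpace

section

variable {d : ℕ} {D : Type} [DivisionRing D] [Algebra ℚ D]

theorem RAL_mulR (a b : ℝ ⊗[ℚ] D) : LinearMap.mulRight ℝ (a * b) =
    (LinearMap.mulRight ℝ b) ∘ₗ (LinearMap.mulRight ℝ a) := by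
  ext x
  all_goals simp [mul_assoc]

theorem RAL_dl (S : SO d D) (a : ℝ ⊗[ℚ] D) : S.dl (S.ev a) = |LinearMap.det (LinearMap.mulRight ℝ a)| := by
  unfold SO.dl
  rw [LinearEquiv.symm_apply_apply]

theorem RAL_baseR (z : D) : LinearMap.mulRight ℝ ((1 : ℝ) ⊗ₜ[ℚ] z) =
    LinearMap.baseChange ℝ (LinearMap.mulRight ℚ z) := by
  ext x
  simp

theorem RAL_baseL (z : D) : LinearMap.mulLeft ℝ ((1 : ℝ) ⊗ₜ[ℚ] z) =
    LinearMap.baseChange ℝ (LinearMap.mulLeft ℚ z) := by
  ext x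
  simp

theorem RAL_detR [FiniteDimensional ℚ D] (hNOR : NOR_stmt) (z : D) :
    LinearMap.det (LinearMap.mulRight ℝ ((1 : ℝ) ⊗ₜ[ℚ] z)) = (nor z : ℝ) := by
  rw [RAL_baseR, LinearMap.det_baseChange, (hNOR D z).1]
  rfl

theorem RAL_detL [FiniteDimensional ℚ D] (z : D) :
    LinearMap.det (LinearMap.mulLeft ℝ ((1 : ℝ) ⊗ₜ[ℚ] z)) = (nor z : ℝ) := by
  rw [RAL_baseL, LinearMap.det_baseChange]
  rfl

theorem RAL_rank (S : SO d D) : finrank ℝ (ℝ ⊗[ℚ] D) = d * d := by
  rw [LinearEquiv.finrank_eq S.ev]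
  simp

/-- matrix of right multiplication, linear in the element -/
noncomputable def RAL_mat (S : SO d D) : EE (d * d) →ₗ[ℝ] Matrix (Fin (d * d)) (Fin (d * d)) ℝ where
  toFun g := LinearMap.toMatrix (S.b.baseChange ℝ) (S.b.baseChange ℝ) (LinearMap.mulRight ℝ (S.ev.symm g))
  map_add' x y := by
    rw [← map_add]
    congr 1
    ext z
    all_goals simp [mul_add]
  map_smul' c x := by
    rw [RingHom.id_apply, ← map_smul]
    congr 1
    ext z
    all_goals simp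

theorem RAL_dlm (S : SO d D) (g : EE (d * d)) : S.dl g = |(RAL_mat S g).det| := by
  unfold SO.dl RAL_mat
  simp only [LinearMap.coe_mk, AddHom.coe_mk, LinearMap.det_toMatrix]

theorem RAL_cont (S : SO d D) : Continuous S.dl := by
  have h : S.dl = fun g => |(RAL_mat S g).det| := by
    funext g
    exact RAL_dlm S g
  rw [h]
  have h2 : Continuous (RAL_mat S) := LinearMap.continuous_of_finiteDimensional _
  exact h2.matrix_det.abs

theorem RAL_smul (S : SO d D) (c : ℝ) (g : EE (d * d)) : S.dl (c • g) = |c| ^ (d * d) * S.dl g := by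
  rw [RAL_dlm, RAL_dlm, map_smul, Matrix.det_smul, abs_mul, abs_pow, Fintype.card_fin]

theorem RAL_act (S : SO d D) (z : D) (g : EE (d * d)) :
    S.act z g = S.ev (((1 : ℝ) ⊗ₜ[ℚ] z) * S.ev.symm g) := rfl

end

theorem RAL (hNOR : NOR_stmt) : RAL_stmt := by
  intro d D _ _ _ hd S
  have hN : 0 < d * d := Nat.mul_pos hd hd
  have h1 : ∀ a b : ℝ ⊗[ℚ] D, S.dl (S.ev (a * b)) = S.dl (S.ev a) * S.dl (S.ev b) := by
    intro a b
    rw [RAL_dl, RAL_dl, RAL_dl, RAL_mulR, LinearMap.det_comp, abs_mul, mul_comm]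
  have h2 : ∀ (z : D) (g : EE (d * d)), S.dl (S.act z g) = |(nor z : ℝ)| * S.dl g := by
    intro z g
    rw [RAL_act, h1, LinearEquiv.apply_symm_apply, RAL_dl, RAL_detR hNOR]
  have h3 : S.dl 0 = 0 := by
    have := RAL_smul S 0 0
    rw [zero_smul, abs_zero, zero_pow hN.ne', zero_mul] at this
    exact this
  refine ⟨h1, h2, RAL_cont S, ?_, ?_, ?_, ?_, RAL_smul S, ?_, h3, ?_⟩
  · obtain ⟨C, hC⟩ := (isCompact_sphere (0 : EE (d * d)) 1).exists_bound_of_continuousOn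
      (RAL_cont S).continuousOn
    refine ⟨max C 1, lt_of_lt_of_le one_pos (le_max_right _ _), fun g => ?_⟩
    by_cases hg : g = 0
    · rw [hg, h3, norm_zero, zero_pow hN.ne', mul_zero]
    have hn : 0 < ‖g‖ := norm_pos_iff.2 hg
    have h4 : g = ‖g‖ • (‖g‖⁻¹ • g) := by rw [smul_smul, mul_inv_cancel₀ hn.ne', one_smul]
    have h5 := hC (‖g‖⁻¹ • g) (by
      rw [mem_sphere_zero_iff_norm, norm_smul, norm_inv, norm_norm, inv_mul_cancel₀ hn.ne'])
    have h6 : S.dl (‖g‖⁻¹ • g) ≤ max C 1 := (le_abs_self _).trans (h5.trans (le_max_left _ _))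
    calc S.dl g = S.dl (‖g‖ • (‖g‖⁻¹ • g)) := by rw [← h4]
      _ = ‖g‖ ^ (d * d) * S.dl (‖g‖⁻¹ • g) := by rw [RAL_smul, abs_norm]
      _ ≤ ‖g‖ ^ (d * d) * max C 1 := mul_le_mul_of_nonneg_left h6 (by positivity)
      _ = max C 1 * ‖g‖ ^ (d * d) := mul_comm _ _
  · intro g hg
    set a := S.ev.symm g with ha
    have hdet : LinearMap.det (LinearMap.mulRight ℝ a) ≠ 0 := by
      intro h0
      apply hg
      unfold SO.dl
      rw [← ha, h0, abs_zero]
    have hu : IsUnit (LinearMap.mulRight ℝ a) :=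
      (LinearMap.isUnit_iff_isUnit_det _).2 (isUnit_iff_ne_zero.2 hdet)
    have hb : Function.Bijective (LinearMap.mulRight ℝ a) := (Module.End.isUnit_iff _).1 hu
    obtain ⟨h, hh⟩ := hb.2 1
    rw [LinearMap.mulRight_apply] at hh
    refine ⟨h, ?_, hh⟩
    apply hb.1
    rw [LinearMap.mulRight_apply, LinearMap.mulRight_apply, mul_assoc, hh, mul_one, one_mul]
  · intro z
    refine ⟨S.ev.toLinearMap ∘ₗ (LinearMap.mulLeft ℝ ((1 : ℝ) ⊗ₜ[ℚ] z)) ∘ₗ S.ev.symm.toLinearMap,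
      fun g => rfl, ?_⟩
    rw [LinearMap.det_conj, RAL_detL]
  · intro z w g
    rw [RAL_act, RAL_act, RAL_act, LinearEquiv.symm_apply_apply, ← mul_assoc,
      Algebra.TensorProduct.tmul_mul_tmul, mul_one]
  · intro z c g
    rw [RAL_act, RAL_act, map_smul, mul_smul_comm, map_smul]
  · rw [RAL_dl]
    have : LinearMap.mulRight ℝ (1 : ℝ ⊗[ℚ] D) = LinearMap.id := by
      ext x
      all_goals simp
    rw [this, LinearMap.det_id, abs_one]

end Pool.Agent.BRZ
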